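import Pool.Agent.BCX.PointNe
import Pool.Agent.BCX.Affine
import Pool.Agent.BCX.Indep

/-!
# Points over all large finite fields containing a given finite field
-/

namespace Pool.Agent.BCQ

open Polynomial Pool.Agent.BCX

/-- the power map `z ↦ z ^ (p ^ e)`, if it fixes the field of constants -/
theorem frob_ev2 (p : ℕ) [Fact p.Prime] {F Ω : Type} [Field F] [Field Ω] [Algebra F Ω]
    [CharP Ω p] (e : ℕ) (hF : ∀ z : F, z ^ p ^ e = z) (x y : Ω) (f : F[X][X]) :
    (ev2 x y f) ^ p ^ e = ev2 (x ^ p ^ e) (y ^ p ^ e) f := by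
  have : ExpChar Ω p := ExpChar.prime Fact.out
  let g : Ω →ₐ[F] Ω :=
    { iterateFrobenius Ω p e with
      commutes' := by
        intro a
        change iterateFrobenius Ω p e (algebraMap F Ω a) = _
        rw [iterateFrobenius_def, ← map_pow, hF] }
  have hg : ∀ z, g z = z ^ p ^ e := fun z => iterateFrobenius_def p e z
  have := ev2_map g x y f
  rw [hg, hg, hg] at this
  exact this

theorem kill {p : ℕ} [Fact p.Prime] {F L Ω R : Type} [Field F] [CharP F p] [Field L] [Field Ω] [CommRing R]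
    [Algebra F L] [Algebra F Ω] [Algebra L Ω] [Algebra Ω R] [Algebra F R]
    [Algebra L R] [IsScalarTower F Ω R] [IsScalarTower L Ω R]
    (c : Curve F Ω R) (f : F[X][X]) (hf : f.natDegree = c.D) (hmon : f.Monic)
    (l n e j : ℕ) (hF : ∀ z : F, z ^ p ^ (j + e) = z) (C : ℕ × ℕ → ℕ × ℕ → L)
    (hC : ∀ r < c.D - 1,
        ∑ ij ∈ (M c.D c.B n).filter (fun ij => ij.2 = r), c.nu l C ij ^ p ^ e * c.x ^ ij.1 =
        c.dd f r * ∑ ij ∈ (M c.D c.B n).filter (fun ij => ij.2 = c.D - 1),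
          c.nu l C ij ^ p ^ e * c.x ^ ij.1)
    (φ : R →ₐ[Ω] Ω) (h0 : ev2 (φ c.x) (φ c.y) f = 0)
    (hx : (φ c.x) ^ p ^ (j + e) = φ c.x) (hy : (φ c.y) ^ p ^ (j + e) ≠ φ c.y) :
    φ (∑ ij ∈ M c.D c.B n, c.nu l C ij * c.mon ij ^ p ^ j) = 0 := by
  classical
  have hch : CharP Ω p := charP_of_injective_algebraMap (algebraMap F Ω).injective p
  have hex : ExpChar Ω p := ExpChar.prime Fact.out
  set x0 := φ c.x with hx0
  set y0 := φ c.y with hy0
  set s0 := y0 ^ p ^ (j + e) with hs0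
  -- the point with the Frobenius image
  have hs : ev2 x0 s0 f = 0 := by
    have h1 := frob_ev2 p (j + e) hF x0 y0 f
    rw [h0, zero_pow (pow_pos (Fact.out : p.Prime).pos _).ne', hx] at h1
    exact h1.symm
  have hD := c.hD
  rw [ev2_eq_sum, hf] at h0 hs
  have hdd := divided_difference c.D (fun t => aeval x0 (f.coeff t)) hy hs h0
  -- the values of the coefficients
  have hφdd : ∀ r, φ (c.dd f r) =
      ∑ t ∈ Finset.Ico (r + 1) (c.D + 1), aeval x0 (f.coeff t) * y0 ^ (t - 1 - r) := by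
    intro r
    unfold Curve.dd
    rw [map_sum]
    refine Finset.sum_congr rfl fun t _ => ?_
    rw [map_mul, map_pow]
    congr 1
    have := Polynomial.aeval_algHom_apply (φ.restrictScalars F) c.x (f.coeff t)
    simpa using this.symm
  have hone : φ (c.dd f (c.D - 1)) = 1 := by
    rw [hφdd]
    have : Finset.Ico (c.D - 1 + 1) (c.D + 1) = {c.D} := by
      rw [Nat.sub_add_cancel hD]
      ext t
      simp only [Finset.mem_Ico, Finset.mem_singleton]
      omega
    rw [this, Finset.sum_singleton, ← hf, hmon.coeff_natDegree, map_one, hf]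
    simp
  -- the sums over the rows
  set A : ℕ → Ω := fun r => ∑ ij ∈ (M c.D c.B n).filter (fun ij => ij.2 = r),
    φ (c.nu l C ij) ^ p ^ e * x0 ^ ij.1 with hA
  have hA2 : ∀ r < c.D, A r = φ (c.dd f r) * A (c.D - 1) := by
    intro r hr
    rcases Nat.lt_or_ge r (c.D - 1) with h | h
    · have h2 := congrArg φ (hC r h)
      rw [map_mul, map_sum, map_sum] at h2
      simp only [map_mul, map_pow] at h2
      exact h2
    · have : r = c.D - 1 := by omega
      rw [this, hone, one_mul]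
  -- the value of the function
  have hpow : (φ (∑ ij ∈ M c.D c.B n, c.nu l C ij * c.mon ij ^ p ^ j)) ^ p ^ e = 0 := by
    rw [map_sum, sum_pow_char_pow]
    have h3 : ∀ ij ∈ M c.D c.B n, (φ (c.nu l C ij * c.mon ij ^ p ^ j)) ^ p ^ e =
        φ (c.nu l C ij) ^ p ^ e * x0 ^ ij.1 * s0 ^ ij.2 := by
      intro ij _
      rw [map_mul, map_pow, mul_pow, ← pow_mul, ← pow_add]
      unfold Curve.mon
      rw [map_mul, map_pow, map_pow, mul_pow, ← hx0, ← hy0, ← pow_mul, ← pow_mul,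
        mul_comm ij.1, mul_comm ij.2, pow_mul, pow_mul, hx, ← hs0, mul_assoc]
    rw [Finset.sum_congr rfl h3]
    have h4 : ∑ ij ∈ M c.D c.B n, φ (c.nu l C ij) ^ p ^ e * x0 ^ ij.1 * s0 ^ ij.2 =
        ∑ r ∈ Finset.range c.D, A r * s0 ^ r := by
      rw [← Finset.sum_fiberwise_of_maps_to (s := M c.D c.B n) (t := Finset.range c.D)
        (g := fun ij => ij.2)]
      · refine Finset.sum_congr rfl fun r _ => ?_
        rw [hA, Finset.sum_mul]
        refine Finset.sum_congr rfl fun ij hij => ?_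
        rw [(Finset.mem_filter.1 hij).2]
      · intro ij hij
        unfold M at hij
        rw [Finset.mem_filter, Finset.mem_product] at hij
        exact hij.1.2
    rw [h4]
    have h5 : ∀ r ∈ Finset.range c.D, A r * s0 ^ r =
        A (c.D - 1) * ((∑ t ∈ Finset.Ico (r + 1) (c.D + 1),
          aeval x0 (f.coeff t) * y0 ^ (t - 1 - r)) * s0 ^ r) := by
      intro r hr
      rw [hA2 r (Finset.mem_range.1 hr), hφdd]
      ring
    rw [Finset.sum_congr rfl h5, ← Finset.mul_sum, hdd, mul_zero]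
  exact (pow_eq_zero_iff (pow_pos (Fact.out : p.Prime).pos _).ne').1 hpow


theorem nonzero {p : ℕ} [Fact p.Prime] {F L Ω R : Type} [Field F] [CharP F p] [Field L] [Field Ω] [CommRing R]
    [Algebra F L] [Algebra F Ω] [Algebra L Ω] [Algebra Ω R] [Algebra F R]
    [Algebra L R] [IsScalarTower F Ω R] [IsScalarTower L Ω R] [IsAlgClosed Ω]
    (c : Curve F Ω R) (θ : PowerSeries F) (ψ : R →+* PowerSeries Ω)
    (hψ : Function.Injective ψ) (hψx : ψ c.x = PowerSeries.X)
    (hψy : ψ c.y = PowerSeries.map (algebraMap F Ω) θ)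
    (l n j : ℕ) (C : ℕ × ℕ → ℕ × ℕ → L)
    (hM0 : ∀ a : {k // k ∈ M c.D c.B l} → PowerSeries Ω,
      ∑ k : {k // k ∈ M c.D c.B l}, PowerSeries.map (algebraMap F Ω)
        (PowerSeries.X ^ k.1.1 * θ ^ k.1.2) * a k ^ p ^ j = 0 → ∀ k, a k = 0)
    {ij0 k0 : ℕ × ℕ} (hij0 : ij0 ∈ M c.D c.B n) (hk0 : k0 ∈ M c.D c.B l) (hC0 : C ij0 k0 ≠ 0) :
    ∑ ij ∈ M c.D c.B n, c.nu l C ij * c.mon ij ^ p ^ j ≠ 0 := by
  classical
  intro h0
  have hchΩ : CharP Ω p := charP_of_injective_algebraMap (algebraMap F Ω).injective p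
  have hchP : CharP (PowerSeries Ω) p :=
    charP_of_injective_algebraMap (algebraMap Ω (PowerSeries Ω)).injective p
  have hexP : ExpChar (PowerSeries Ω) p := ExpChar.prime Fact.out
  have hpj : 0 < p ^ j := pow_pos (Fact.out : p.Prime).pos _
  have hroot : ∀ ij k : ℕ × ℕ, ∃ w : Ω, w ^ p ^ j = algebraMap L Ω (C ij k) := fun ij k =>
    IsAlgClosed.exists_pow_nat_eq _ hpj
  choose c' hc' using hroot
  have hmon : ∀ k : ℕ × ℕ, PowerSeries.map (algebraMap F Ω)
      (PowerSeries.X ^ k.1 * θ ^ k.2) = ψ (c.mon k) := by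
    intro k
    have h1 : ψ (c.mon k) = ψ c.x ^ k.1 * ψ c.y ^ k.2 := by
      unfold Curve.mon
      rw [map_mul ψ, map_pow ψ, map_pow ψ]
    rw [h1, hψx, hψy, map_mul, map_pow, map_pow, PowerSeries.map_X]
  have hk : ∀ k : {k // k ∈ M c.D c.B l}, PowerSeries.map (algebraMap F Ω)
        (PowerSeries.X ^ k.1.1 * θ ^ k.1.2) *
        (ψ (∑ ij ∈ M c.D c.B n, algebraMap Ω R (c' ij k.1) * c.mon ij)) ^ p ^ j =
        ∑ ij ∈ M c.D c.B n, ψ (algebraMap L R (C ij k.1) * c.mon k.1 * c.mon ij ^ p ^ j) := by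
    intro k
    rw [hmon, map_sum, sum_pow_char_pow, Finset.mul_sum]
    refine Finset.sum_congr rfl fun ij _ => ?_
    have h4 : algebraMap L R (C ij k.1) = algebraMap Ω R (c' ij k.1) ^ p ^ j := by
      rw [← map_pow, hc', ← IsScalarTower.algebraMap_apply]
    rw [h4, ← map_pow, ← map_mul]
    congr 1
    ring
  have h1 : ∑ k : {k // k ∈ M c.D c.B l}, PowerSeries.map (algebraMap F Ω)
        (PowerSeries.X ^ k.1.1 * θ ^ k.1.2) *
        (ψ (∑ ij ∈ M c.D c.B n, algebraMap Ω R (c' ij k.1) * c.mon ij)) ^ p ^ j = 0 := by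
    rw [Finset.sum_congr rfl fun k _ => hk k, Finset.sum_comm]
    have h2 : ∀ ij ∈ M c.D c.B n, ∑ k : {k // k ∈ M c.D c.B l},
        ψ (algebraMap L R (C ij k.1) * c.mon k.1 * c.mon ij ^ p ^ j) =
        ψ (c.nu l C ij * c.mon ij ^ p ^ j) := by
      intro ij _
      rw [← map_sum]
      congr 1
      unfold Curve.nu
      rw [Finset.sum_mul]
      exact Finset.sum_coe_sort (M c.D c.B l) (fun k => algebraMap L R (C ij k) * c.mon k *
            c.mon ij ^ p ^ j)
    rw [Finset.sum_congr rfl h2, ← map_sum, h0, map_zero]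
  have h6 := hM0 _ h1 ⟨k0, hk0⟩
  have h7 : ∑ ij ∈ M c.D c.B n, algebraMap Ω R (c' ij k0) * c.mon ij = 0 := by
    apply hψ
    rw [map_zero]
    exact h6
  have h8 := c.coeff_eq_zero n (fun ij => c' ij k0) h7 ij0 hij0
  have h9 := hc' ij0 k0
  have h8' : c' ij0 k0 = 0 := h8
  rw [h8', zero_pow hpj.ne'] at h9
  exact hC0 ((algebraMap L Ω).injective (by rw [← h9, map_zero]))


theorem exists_point (p : ℕ) [Fact p.Prime] {F : Type} [Field F] [Finite F] [CharP F p]
    (f : F[X][X]) (hf : f.Monic)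
    (hD : 1 ≤ f.natDegree) (θ : PowerSeries F) (hθ : ev2 PowerSeries.X θ f = 0)
    (hind : LinearIndependent F (fun ij : ℕ × Fin f.natDegree =>
      (PowerSeries.X : PowerSeries F) ^ ij.1 * θ ^ (ij.2 : ℕ)))
    (r : F[X]) (hr : r ≠ 0) (a b : F[X][X])
    (hsep : a * f + b * derivative f = C r) :
    ∃ Q0 : ℕ, ∀ (L : Type) [Field L] [Finite L] [Algebra F L], Q0 ≤ Nat.card L →
      ∃ x0 y0 : L, ev2 x0 y0 f = 0 ∧ aeval x0 r ≠ 0 := by
  classical
  set D := f.natDegree with hDdef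
  set B := (Finset.range f.natDegree).sup (fun t => (f.coeff t).natDegree) with hBdef
  set l' := (D - 1) * (B * D + 1) + 1 with hl'
  set l := B * D + l' with hl
  set g0 := r.natDegree with hg0
  set aa := l + g0 + 1 with haa
  let v : {k // k ∈ M D B l} → PowerSeries F := fun k => PowerSeries.X ^ k.1.1 * θ ^ k.1.2
  have hMlt : ∀ {N : ℕ} {k : ℕ × ℕ}, k ∈ M D B N → k.2 < D := by
    intro N k hk
    unfold M at hk
    rw [Finset.mem_filter, Finset.mem_product] at hk
    exact Finset.mem_range.1 hk.1.2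
  have hv : LinearIndependent F v := by
    have := hind.comp (fun k : {k // k ∈ M D B l} => (k.1.1, (⟨k.1.2, hMlt k.2⟩ : Fin D))) (by
      rintro ⟨⟨i, j⟩, hk⟩ ⟨⟨i', j'⟩, hk'⟩ h
      simp only [Prod.mk.injEq, Fin.mk.injEq] at h
      simp only [Subtype.mk.injEq, Prod.mk.injEq]
      exact h)
    exact this
  obtain ⟨M0, hM0⟩ := indep_pow v hv
  have hp1 : 1 < p := (Fact.out : p.Prime).one_lt
  obtain ⟨j, hj⟩ : ∃ j, M0 ≤ p ^ j := ⟨M0, (Nat.lt_pow_self hp1).le⟩
  refine ⟨p ^ j * (D * l' * (aa + B * D) + 1) + g0, ?_⟩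
  intro L _ _ _ hQ
  by_contra hcon
  push Not at hcon
  have hchL0 : CharP L p := charP_of_injective_algebraMap (algebraMap F L).injective p
  obtain ⟨e0, he0⟩ : ∃ e, Nat.card L = p ^ e :=
    @exists_card p _ L _ _ (ZMod.algebra L p)
  have hpj : 0 < p ^ j := pow_pos (Fact.out : p.Prime).pos _
  obtain ⟨e, he⟩ : ∃ e, e0 = j + e := by
    have : p ^ j ≤ p ^ e0 := by
      rw [← he0]
      refine le_trans ?_ hQ
      refine le_trans ?_ (Nat.le_add_right _ _)
      exact Nat.le_mul_of_pos_right _ (Nat.succ_pos _)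
    exact ⟨e0 - j, by have := (Nat.pow_le_pow_iff_right hp1).1 this; omega⟩
  subst he
  set P := p ^ e with hP
  have hQP : Nat.card L = p ^ j * P := by rw [he0, pow_add]
  have hPbig : D * l' * (aa + B * D) < P := by
    by_contra h
    push Not at h
    have h1 : p ^ j * P ≤ p ^ j * (D * l' * (aa + B * D)) := Nat.mul_le_mul_left _ h
    rw [hQP] at hQ
    rw [mul_add, mul_one] at hQ
    omega
  set n := P - aa with hn
  have hF0 : ∀ z : F, z ^ p ^ (j + e) = z := by
    intro z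
    apply (algebraMap F L).injective
    have := Fintype.ofFinite L
    rw [map_pow, ← he0, Nat.card_eq_fintype_card, FiniteField.pow_card]
  -- the curve
  let Ω := AlgebraicClosure L
  have hchL : CharP L p := charP_of_injective_algebraMap (algebraMap F L).injective p
  have hchΩ : CharP Ω p := charP_of_injective_algebraMap (algebraMap F Ω).injective p
  have hexΩ : ExpChar Ω p := ExpChar.prime Fact.out
  obtain ⟨c, ψ, hdom, hcD, hcB, hca, hψ, hψC, hψx, hψy, hpt⟩ :=
    exists_curve f hf hD θ hθ hind Ω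
  have hchR : CharP (CR f Ω) p :=
    charP_of_injective_algebraMap (algebraMap Ω (CR f Ω)).injective p
  have hexR : ExpChar (CR f Ω) p := ExpChar.prime Fact.out
  have hcB' : c.B = B := hcB
  have hcD' : c.D = D := hcD
  have hfD : f.coeff c.D = 1 := by rw [hcD', hDdef, hf.coeff_natDegree]
  have hfB : ∀ t < c.D, (f.coeff t).natDegree ≤ c.B := by
    intro t ht
    rw [hcB', hBdef]
    exact Finset.le_sup (f := fun t => (f.coeff t).natDegree)
      (Finset.mem_range.2 (by rw [hcD'] at ht; exact ht))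
  have haPn : P - aa - B * D ≤ n - B * D := le_of_eq rfl
  have hcard : (c.D - 1) * (M c.D c.B (l * p ^ e + n)).card <
      (M c.D c.B n).card * (M c.D c.B l).card := by
    rw [hcD', hcB', ← hP]
    have h1 := numeric (B := B) hD (by omega : 1 ≤ aa) hl' hPbig
    have h2 := card_M_le D B (l * P + n)
    have h3 := le_card_M D B n
    have h4 := le_card_M D B l
    have h5 : l - B * D = l' := by omega
    rw [h5] at h4
    calc (D - 1) * (M D B (l * P + n)).card
        ≤ (D - 1) * (D * (l * P + n + 1)) := Nat.mul_le_mul_left _ h2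
      _ < D * (P - aa - B * D) * (D * l') := h1
      _ ≤ (M D B n).card * (M D B l).card := Nat.mul_le_mul h3 h4
  obtain ⟨C, ⟨ij0, hij0, k0, hk0, hC0⟩, hC⟩ := c.exists_kernel (L := L) p e l n (c.dd f)
    (fun r hr => c.dd_mem f hfD hfB hr) hcard
  set h : CR f Ω := ∑ ij ∈ M c.D c.B n, c.nu l C ij * c.mon ij ^ p ^ j with hh
  -- weight
  have hmem : h ∈ Submodule.span Ω (c.mons (l + p ^ j * n)) := by
    refine Submodule.sum_mem _ fun ij hij => ?_
    refine c.mul_mem ?_ ?_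
    · unfold Curve.nu
      refine Submodule.sum_mem _ fun k hk => ?_
      rw [IsScalarTower.algebraMap_apply L Ω (CR f Ω)]
      exact c.smul_mons _ hk
    · exact c.pow_mem' (Submodule.subset_span ⟨ij, hij, rfl⟩) _
  -- nonvanishing
  have hne : h ≠ 0 := by
    have hM1 : ∀ a : {k // k ∈ M c.D c.B l} → PowerSeries Ω,
        ∑ k : {k // k ∈ M c.D c.B l}, PowerSeries.map (algebraMap F Ω)
          (PowerSeries.X ^ k.1.1 * θ ^ k.1.2) * a k ^ p ^ j = 0 → ∀ k, a k = 0 := by
      rw [hcD', hcB']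
      exact hM0 Ω p j hj
    exact nonzero c θ ψ hψ hψx hψy l n j C hM1 hij0 hk0 hC0
  -- the points
  have hfib : ∀ x0 : L, aeval x0 r ≠ 0 → ∃ S : Finset Ω, S.card = D ∧
      ∀ y0 ∈ S, ev2 (algebraMap L Ω x0) y0 f = 0 := by
    intro x0 hx0
    refine exists_fibre f hf r a b hsep (algebraMap L Ω x0) ?_
    rw [aeval_algebraMap_apply]
    exact fun h => hx0 ((map_eq_zero _).1 h)
  choose! S hScard hS using hfib
  set G : Finset L := (Set.toFinite {x0 : L | aeval x0 r ≠ 0}).toFinset with hG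
  have hGmem : ∀ x0, x0 ∈ G ↔ aeval x0 r ≠ 0 := by
    intro x0
    rw [hG, Set.Finite.mem_toFinset, Set.mem_ofPred_eq]
  have hGcard : Nat.card L ≤ G.card + g0 := card_good r hr
  obtain ⟨φ0⟩ : Nonempty (CR f Ω →ₐ[Ω] Ω) := by
    have h1 : 0 < G.card := by
      have h3 : 0 < p ^ j * (D * l' * (aa + B * D) + 1) := Nat.mul_pos hpj (Nat.succ_pos _)
      omega
    obtain ⟨x1, hx1⟩ := Finset.card_pos.1 h1
    have h2 : 0 < (S x1).card := by rw [hScard x1 ((hGmem x1).1 hx1)]; exact hD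
    obtain ⟨y1, hy1⟩ := Finset.card_pos.1 h2
    obtain ⟨φ, -⟩ := hpt _ _ (hS x1 ((hGmem x1).1 hx1) y1 hy1)
    exact ⟨φ⟩
  have hpt' : ∀ (x0 : L) (y0 : Ω), ∃ φ : CR f Ω →ₐ[Ω] Ω, aeval x0 r ≠ 0 → y0 ∈ S x0 →
      φ c.x = algebraMap L Ω x0 ∧ φ c.y = y0 := by
    intro x0 y0
    by_cases h : aeval x0 r ≠ 0 ∧ y0 ∈ S x0
    · obtain ⟨φ, hφ⟩ := hpt _ _ (hS x0 h.1 y0 h.2)
      exact ⟨φ, fun _ _ => hφ⟩
    · exact ⟨φ0, fun h1 h2 => absurd ⟨h1, h2⟩ h⟩
  choose φ hφ using hpt'
  set Z : Finset (CR f Ω →ₐ[Ω] Ω) := (G.sigma S).image (fun q => φ q.1 q.2) with hZ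
  have hZcard : Z.card = G.card * D := by
    rw [hZ, Finset.card_image_of_injOn, Finset.card_sigma, Finset.sum_const_nat (m := D)]
    · intro x0 hx0
      exact hScard x0 ((hGmem x0).1 hx0)
    · rintro ⟨x0, y0⟩ hq ⟨x1, y1⟩ hq1 heq
      rw [Finset.mem_coe, Finset.mem_sigma] at hq hq1
      have h1 := hφ x0 y0 ((hGmem x0).1 hq.1) hq.2
      have h2 := hφ x1 y1 ((hGmem x1).1 hq1.1) hq1.2
      simp only at heq
      rw [heq] at h1
      have h3 : x0 = x1 := (algebraMap L Ω).injective (h1.1.symm.trans h2.1)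
      have h4 : y0 = y1 := h1.2.symm.trans h2.2
      subst h3 h4
      rfl
  have hzero : ∀ χ ∈ Z, χ h = 0 := by
    intro χ hχ
    rw [hZ, Finset.mem_image] at hχ
    obtain ⟨⟨x0, y0⟩, hq, rfl⟩ := hχ
    rw [Finset.mem_sigma] at hq
    have h1 := (hGmem x0).1 hq.1
    obtain ⟨hx1, hy1⟩ := hφ x0 y0 h1 hq.2
    have h2 := hS x0 h1 y0 hq.2
    refine kill c f hcD.symm hf l n e j hF0 C hC _ ?_ ?_ ?_
    · rw [hx1, hy1]; exact h2
    · rw [hx1, ← map_pow, ← he0]
      congr 1
      have := Fintype.ofFinite L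
      rw [Nat.card_eq_fintype_card]
      exact FiniteField.pow_card x0
    · rw [hy1]
      intro h3
      rw [← he0] at h3
      obtain ⟨y1, hy⟩ := mem_range_of_pow h3
      apply h1
      refine hcon x0 y1 ?_
      apply (algebraMap L Ω).injective
      have := ev2_map (F := F) (IsScalarTower.toAlgHom F L Ω) x0 y1 f
      rw [map_zero, ← h2, ← hy]
      exact this
  have hfin := c.card_zeros hmem hne Z hzero
  rw [hZcard, hcD', mul_comm] at hfin
  have h1 : G.card ≤ l + p ^ j * n := Nat.le_of_mul_le_mul_left hfin hD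
  have h2 : p ^ j * n + p ^ j * aa = p ^ j * P := by
    rw [← mul_add]
    congr 1
    have : aa ≤ D * l' * (aa + B * D) := by
      refine le_trans (Nat.le_add_right aa (B * D)) ?_
      apply Nat.le_mul_of_pos_left
      rw [hl']
      positivity
    omega
  have h3 : aa ≤ p ^ j * aa := Nat.le_mul_of_pos_left _ hpj
  omega

end Pool.Agent.BCQ
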