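import Pool.Agent.BCX.Inverse

/-!
# Simple roots move continuously
-/

set_option autoImplicit false

namespace Pool.Agent.BCQ

open Polynomial Pool.Agent.BCX
open scoped Topology

section

variable {𝕜 : Type} [NontriviallyNormedField 𝕜]

/-- the polynomial with free coefficients, and its coefficients -/
noncomputable def sysR (𝕜 : Type) [NontriviallyNormedField 𝕜] (N : ℕ) :
    Option (Fin (N + 1)) → MvPolynomial (Option (Fin (N + 1))) 𝕜
  | none => ∑ i : Fin (N + 1), MvPolynomial.X (some i) * MvPolynomial.X none ^ (i : ℕ)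
  | some i => MvPolynomial.X (some i)

/-- the point of the system with the root `r` and the polynomial `P` -/
noncomputable def ptR (N : ℕ) (P : 𝕜[X]) (r : 𝕜) : Option (Fin (N + 1)) → 𝕜
  | none => r
  | some i => P.coeff i

theorem eval_eq_sum_fin {N : ℕ} {P : 𝕜[X]} (hN : P.natDegree ≤ N) (r : 𝕜) :
    ∑ i : Fin (N + 1), P.coeff i * r ^ (i : ℕ) = P.eval r := by
  rw [Fin.sum_univ_eq_sum_range (fun i => P.coeff i * r ^ i) (N + 1),
    eval_eq_sum_range' (Nat.lt_succ_of_le hN)]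

theorem derivative_eval_eq_sum_fin {N : ℕ} {P : 𝕜[X]} (hN : P.natDegree ≤ N) (r : 𝕜) :
    ∑ i : Fin (N + 1), P.coeff i * (((i : ℕ) : 𝕜) * r ^ ((i : ℕ) - 1)) =
      (derivative P).eval r := by
  rw [Fin.sum_univ_eq_sum_range (fun i => P.coeff i * ((i : 𝕜) * r ^ (i - 1))) (N + 1)]
  conv_rhs => rw [P.as_sum_range' (N + 1) (Nat.lt_succ_of_le hN)]
  rw [derivative_sum, eval_finsetSum]
  refine Finset.sum_congr rfl fun i _ => ?_
  rw [derivative_monomial, eval_monomial]
  ring

theorem aeval_sysR_none (N : ℕ) (v : Option (Fin (N + 1)) → 𝕜) :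
    MvPolynomial.aeval v (sysR 𝕜 N none) =
      ∑ i : Fin (N + 1), v (some i) * v none ^ (i : ℕ) := by
  simp [sysR]

theorem aeval_sysR_some (N : ℕ) (v : Option (Fin (N + 1)) → 𝕜) (i : Fin (N + 1)) :
    MvPolynomial.aeval v (sysR 𝕜 N (some i)) = v (some i) := by
  simp [sysR]

theorem jac_sysR {N : ℕ} {P : 𝕜[X]} (hN : P.natDegree ≤ N) {r : 𝕜}
    (hr' : (derivative P).eval r ≠ 0) :
    (Matrix.of fun i j => MvPolynomial.aeval (ptR N P r)
      (MvPolynomial.pderiv j (sysR 𝕜 N i))).det ≠ 0 := by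
  intro h0
  obtain ⟨v, hv, hv0⟩ := Matrix.exists_mulVec_eq_zero_iff.2 h0
  apply hv
  have hsome : ∀ i, v (some i) = 0 := by
    intro i
    have h := congrFun hv0 (some i)
    simp only [Matrix.mulVec, dotProduct, Matrix.of_apply, sysR, Pi.zero_apply] at h
    rw [Finset.sum_eq_single (some i)] at h
    · simpa using h
    · intro j _ hj
      rw [MvPolynomial.pderiv_X_of_ne (Ne.symm hj)]
      simp
    · intro hi
      exact absurd (Finset.mem_univ _) hi
  have hnone : v none = 0 := by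
    have h := congrFun hv0 none
    simp only [Matrix.mulVec, dotProduct, Matrix.of_apply, Pi.zero_apply,
      Fintype.sum_option, hsome, mul_zero, Finset.sum_const_zero, add_zero] at h
    have h2 : MvPolynomial.aeval (ptR N P r) (MvPolynomial.pderiv none (sysR 𝕜 N none)) =
        (derivative P).eval r := by
      rw [← derivative_eval_eq_sum_fin hN]
      simp only [sysR, map_sum]
      refine Finset.sum_congr rfl fun i _ => ?_
      rw [Derivation.leibniz, Derivation.leibniz_pow, MvPolynomial.pderiv_X_self,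
        MvPolynomial.pderiv_X_of_ne (by simp : (some i : Option (Fin (N + 1))) ≠ none)]
      simp [ptR]
    rw [h2] at h
    exact (mul_eq_zero.1 h).resolve_left hr'
  funext j
  rcases j with _ | i
  · exact hnone
  · exact hsome i

variable [CompleteSpace 𝕜]

/-- **simple roots move continuously** -/
theorem exists_root_near (P : 𝕜[X]) (r : 𝕜) (hr : P.eval r = 0)
    (hr' : (derivative P).eval r ≠ 0) (N : ℕ) (hN : P.natDegree ≤ N) {U : Set 𝕜}
    (hU : U ∈ 𝓝 r) :
    ∃ δ > 0, ∀ Q : 𝕜[X], Q.natDegree ≤ N → (∀ i, ‖Q.coeff i - P.coeff i‖ < δ) →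
      ∃ s ∈ U, Q.eval s = 0 ∧ (derivative Q).eval s ≠ 0 := by
  have hJ := jac_sysR hN hr'
  have hder : Continuous fun v : Option (Fin (N + 1)) → 𝕜 =>
      ∑ i : Fin (N + 1), v (some i) * (((i : ℕ) : 𝕜) * v none ^ ((i : ℕ) - 1)) := by
    fun_prop
  have hder0 : ∀ᶠ v in 𝓝 (ptR N P r), (∑ i : Fin (N + 1), v (some i) *
      (((i : ℕ) : 𝕜) * v none ^ ((i : ℕ) - 1))) ≠ 0 := by
    refine hder.continuousAt.eventually_ne ?_
    have h := derivative_eval_eq_sum_fin hN r
    simp only [ptR]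
    rw [h]
    exact hr'
  have hV : {v : Option (Fin (N + 1)) → 𝕜 | v none ∈ U ∧ (∑ i : Fin (N + 1), v (some i) *
      (((i : ℕ) : 𝕜) * v none ^ ((i : ℕ) - 1))) ≠ 0} ∈ 𝓝 (ptR N P r) := by
    have h1 : ∀ᶠ v in 𝓝 (ptR N P r), v none ∈ U :=
      (continuous_apply (none : Option (Fin (N + 1)))).continuousAt.preimage_mem_nhds hU
    exact h1.and hder0
  have hev := poly_inverse (sysR 𝕜 N) (ptR N P r) hJ hV
  have h0 : (fun i => MvPolynomial.aeval (ptR N P r) (sysR 𝕜 N i)) =
      ptR N P 0 := by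
    funext i
    rcases i with _ | i
    · rw [aeval_sysR_none]
      have h := eval_eq_sum_fin hN r
      simp only [ptR]
      rw [h, hr]
    · rw [aeval_sysR_some]
      rfl
  rw [h0, Metric.eventually_nhds_iff] at hev
  obtain ⟨δ, hδ, hw⟩ := hev
  refine ⟨δ, hδ, fun Q hQ hQP => ?_⟩
  obtain ⟨v, ⟨hvU, hvd⟩, hv⟩ := hw (y := ptR N Q 0) (by
    rw [dist_pi_lt_iff hδ]
    rintro (_ | i)
    · simpa [ptR] using hδ
    · simpa [ptR, dist_eq_norm] using hQP i)
  have hc : ∀ i : Fin (N + 1), v (some i) = Q.coeff i := by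
    intro i
    have h := hv (some i)
    rwa [aeval_sysR_some] at h
  refine ⟨v none, hvU, ?_, ?_⟩
  · have h := hv none
    rw [aeval_sysR_none] at h
    simp only [hc] at h
    rwa [eval_eq_sum_fin hQ] at h
  · simp only [hc] at hvd
    rwa [derivative_eval_eq_sum_fin hQ] at hvd

/-- the version along a filter -/
theorem eventually_root_near {ι : Type} {l : Filter ι} (Q : ι → 𝕜[X]) (P : 𝕜[X]) (r : 𝕜)
    (hr : P.eval r = 0) (hr' : (derivative P).eval r ≠ 0) (N : ℕ)
    (hQN : ∀ᶠ n in l, (Q n).natDegree ≤ N) (hN : P.natDegree ≤ N)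
    (hQ : ∀ i ≤ N, Filter.Tendsto (fun n => (Q n).coeff i) l (𝓝 (P.coeff i))) {U : Set 𝕜}
    (hU : U ∈ 𝓝 r) :
    ∀ᶠ n in l, ∃ s ∈ U, (Q n).eval s = 0 ∧ (derivative (Q n)).eval s ≠ 0 := by
  obtain ⟨δ, hδ, h⟩ := exists_root_near P r hr hr' N hN hU
  have h1 : ∀ᶠ n in l, ∀ i ∈ Finset.range (N + 1), ‖(Q n).coeff i - P.coeff i‖ < δ := by
    rw [Filter.eventually_all_finset]
    intro i hi
    have h2 := (Metric.tendsto_nhds.1 (hQ i (Nat.lt_succ_iff.1 (Finset.mem_range.1 hi)))) δ hδ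
    filter_upwards [h2] with n hn
    rwa [dist_eq_norm] at hn
  filter_upwards [h1, hQN] with n hn hn2
  refine h (Q n) hn2 fun i => ?_
  rcases Nat.lt_or_ge N i with hi | hi
  · rw [coeff_eq_zero_of_natDegree_lt (by omega), coeff_eq_zero_of_natDegree_lt (by omega),
      sub_zero, norm_zero]
    exact hδ
  · exact hn i (Finset.mem_range.2 (by omega))

end

end Pool.Agent.BCQ
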